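import Pool.Agent.E8helper50.SR.S4

/-!
# Piece ONE: the odd part is a cyclic bimodule modulo a nilpotent ideal
-/

set_option autoImplicit false

universe u v

namespace Pool.Agent.E8helper99.SR

open Pool.Agent.E8helper50.SR

section

variable {K : Type u} [Field K] {A B : SAlg K} (π : A →ₗ[K] B)

/-- `a` is a product of `k + 1` elements of the kernel -/
def IsK (k : ℕ) (a : A) : Prop := ∃ z : Fin (k + 1) → A, (∀ i, π (z i) = 0) ∧ a = wprod k z

lemma wprod_update (k : ℕ) (z : Fin (k + 1) → A) (c : A) :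
    wprod k (Function.update z (Fin.last k) (z (Fin.last k) * c)) = wprod k z * c := by
  cases k with
  | zero =>
    have h : (Fin.last 0) = (0 : Fin 1) := rfl
    simp only [wprod, h, Function.update_self]
  | succ k =>
    simp only [wprod, Function.update_self]
    have : (fun i : Fin (k + 1) => Function.update z (Fin.last (k + 1)) (z (Fin.last (k + 1)) * c)
        i.castSucc) = fun i => z i.castSucc := by
      funext i
      rw [Function.update_of_ne]
      exact (Fin.castSucc_lt_last i).ne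
    rw [this, mul_assoc]

variable {π}

lemma IsK.mul_right (hm : ∀ x y, π (x * y) = π x * π y) {k : ℕ} {a : A} (h : IsK π k a) (c : A) :
    IsK π k (a * c) := by
  obtain ⟨z, hz, rfl⟩ := h
  refine ⟨Function.update z (Fin.last k) (z (Fin.last k) * c), fun i => ?_,
    (wprod_update k z c).symm⟩
  by_cases hi : i = Fin.last k
  · subst hi
    rw [Function.update_self, hm, hz, zero_mul]
  · rw [Function.update_of_ne hi, hz]

lemma IsK.mul_ker {k : ℕ} {a : A} (h : IsK π k a) {c : A} (hc : π c = 0) :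
    IsK π (k + 1) (a * c) := by
  obtain ⟨z, hz, rfl⟩ := h
  refine ⟨Fin.snoc z c, fun i => ?_, ?_⟩
  · refine Fin.lastCases ?_ (fun i => ?_) i
    · rw [Fin.snoc_last, hc]
    · rw [Fin.snoc_castSucc, hz]
  · simp only [wprod, Fin.snoc_last, Fin.snoc_castSucc]

lemma IsK.of_ker {a : A} (h : π a = 0) : IsK π 0 a := ⟨fun _ => a, fun _ => h, rfl⟩

lemma word (hm : ∀ x y, π (x * y) = π x * π y) : ∀ (n : ℕ) (x : Fin (n + 1) → A)
    (D : Finset (Fin (n + 1))) (k : ℕ), (∀ i ∈ D, π (x i) = 0) → D.card = k + 1 →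
    IsK π k (wprod n x) := by
  intro n
  induction n with
  | zero =>
    intro x D k hD hc
    have h1 : D.card ≤ 1 := by simpa using Finset.card_le_univ D
    have hk : k = 0 := by omega
    subst hk
    obtain ⟨i, hi⟩ := Finset.card_eq_one.1 hc
    have h0 : i = 0 := by
      apply Fin.ext
      have := i.2
      simp only [Fin.val_zero]
      omega
    have := hD i (by rw [hi]; exact Finset.mem_singleton_self i)
    rw [h0] at this
    exact IsK.of_ker this
  | succ n ih =>
    intro x D k hD hc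
    set D' : Finset (Fin (n + 1)) := Finset.univ.filter (fun i => i.castSucc ∈ D) with hD'
    have hcard : D.card = D'.card + (if Fin.last (n + 1) ∈ D then 1 else 0) := by
      have e1 : D.card = ∑ i : Fin (n + 2), if i ∈ D then 1 else 0 := by
        rw [← Finset.card_filter]
        congr 1
        ext i
        simp
      rw [e1, Fin.sum_univ_castSucc, hD', Finset.card_filter]
    have hD2 : ∀ i ∈ D', π (x i.castSucc) = 0 := fun i hi => hD _ (Finset.mem_filter.1 hi).2
    show IsK π k (wprod n (fun i => x i.castSucc) * x (Fin.last (n + 1)))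
    by_cases hl : Fin.last (n + 1) ∈ D
    · rw [if_pos hl] at hcard
      have hxl := hD _ hl
      cases k with
      | zero =>
        apply IsK.of_ker
        rw [hm, hxl, mul_zero]
      | succ k =>
        exact (ih (fun i => x i.castSucc) D' k hD2 (by omega)).mul_ker hxl
    · rw [if_neg hl] at hcard
      exact (ih (fun i => x i.castSucc) D' k hD2 (by omega)).mul_right hm _

lemma IsK.zero {m : ℕ} (hnil : ∀ z : Fin (m + 1) → A, (∀ i, π (z i) = 0) → wprod m z = 0) :
    ∀ k : ℕ, m ≤ k → ∀ a : A, IsK π k a → a = 0 := by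
  intro k hk
  induction k, hk using Nat.le_induction with
  | base =>
    rintro a ⟨z, hz, rfl⟩
    exact hnil z hz
  | succ k _ ih =>
    rintro a ⟨z, hz, rfl⟩
    have := ih (wprod k (fun i => z i.castSucc)) ⟨_, fun i => hz _, rfl⟩
    show wprod k (fun i => z i.castSucc) * z (Fin.last (k + 1)) = 0
    rw [this, zero_mul]

lemma lift (hs : Function.Surjective π)
    (hg : ∀ (i : ZMod 2), ∀ x ∈ A.gr i, π x ∈ B.gr i) (i : ZMod 2) (b : B) (hb : b ∈ B.gr i) :
    ∃ a ∈ A.gr i, π a = b := by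
  obtain ⟨a, rfl⟩ := hs b
  have hsup : a ∈ A.gr 0 ⊔ A.gr 1 := by
    rw [A.compl.sup_eq_top]
    exact Submodule.mem_top
  obtain ⟨a0, h0, a1, h1, rfl⟩ := Submodule.mem_sup.1 hsup
  rw [map_add] at hb ⊢
  have p0 := hg 0 a0 h0
  have p1 := hg 1 a1 h1
  have hi : i = 0 ∨ i = 1 := by
    have : ∀ i : ZMod 2, i = 0 ∨ i = 1 := by decide
    exact this i
  rcases hi with rfl | rfl
  · refine ⟨a0, h0, ?_⟩
    have h2 : π a1 ∈ B.gr 0 := by
      have := (B.gr 0).sub_mem hb p0
      rwa [add_sub_cancel_left] at this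
    have h3 : π a1 = 0 := (Submodule.disjoint_def.1 B.compl.disjoint) _ h2 p1
    rw [h3, add_zero]
  · refine ⟨a1, h1, ?_⟩
    have h2 : π a0 ∈ B.gr 1 := by
      have := (B.gr 1).sub_mem hb p1
      rwa [add_sub_cancel_right] at this
    have h3 : π a0 = 0 := (Submodule.disjoint_def.1 B.compl.disjoint) _ p0 h2
    rw [h3, zero_add]

end

theorem t_ONE : S_QSP.{u} → S_QCY.{u} → S_ONE.{u} := by
  intro hQSP hQCY K _ _ A _
  obtain ⟨B, π, m, hfin, hsp, hsurj, hm, hg, hnil⟩ := hQSP K A
  obtain ⟨yB, hyB, hspan⟩ := hQCY K B hsp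
  obtain ⟨y, hy, hyy⟩ := lift hsurj hg 1 yB hyB
  refine ⟨y, hy, A.gr 1 ⊓ LinearMap.ker π, m, inf_le_left, ?_, ?_⟩
  · intro n x D hD hc
    obtain ⟨k, hk⟩ : ∃ k, D.card = k + 1 := ⟨D.card - 1, by omega⟩
    have h := word (π := π) hm n x D k (fun i hi => LinearMap.mem_ker.1 (hD i hi).2) hk
    exact IsK.zero hnil k (by omega) _ h
  · intro x hx
    have h1 := hspan (π x) (hg 1 x hx)
    have hle : Submodule.span K {z : B | ∃ a ∈ B.gr 0, ∃ b ∈ B.gr 0, z = a * yB * b} ≤
        (Submodule.span K {z : A | ∃ a ∈ A.gr 0, ∃ b ∈ A.gr 0, z = a * y * b}).map π := by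
      rw [Submodule.span_le]
      rintro z ⟨a, ha, b, hb, rfl⟩
      obtain ⟨a', ha', rfl⟩ := lift hsurj hg 0 a ha
      obtain ⟨b', hb', rfl⟩ := lift hsurj hg 0 b hb
      refine ⟨a' * y * b', Submodule.subset_span ⟨a', ha', b', hb', rfl⟩, ?_⟩
      rw [hm, hm, hyy]
    obtain ⟨z, hz, hzx⟩ := hle h1
    have hz1 : z ∈ A.gr 1 := by
      have hle1 : Submodule.span K {z : A | ∃ a ∈ A.gr 0, ∃ b ∈ A.gr 0, z = a * y * b} ≤
          A.gr 1 := by
        rw [Submodule.span_le]
        rintro z ⟨a, ha, b, hb, rfl⟩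
        have e1 := A.mul_mem 0 1 a y ha hy
        have e2 := A.mul_mem (0 + 1) 0 (a * y) b e1 hb
        simpa using e2
      exact hle1 hz
    rw [Submodule.mem_sup]
    have hker : x - z ∈ LinearMap.ker π := by
      rw [LinearMap.mem_ker, map_sub, hzx, sub_self]
    exact ⟨z, hz, x - z, ⟨(A.gr 1).sub_mem hx hz1, hker⟩, by abel⟩

end Pool.Agent.E8helper99.SR
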